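import Pool.Agent.Q270.LA.K

/-!
# Lang's inequality for almost all elements of a number field
-/

set_option autoImplicit false

namespace Pool.Agent.Results.MP_c307ca_nt.AlmostAllFieldElements

open Finset Filter Pool.Agent.Q270.LA

/-- the growth of the error term -/
theorem err (κ δ K : ℝ) (hκ : 1 ≤ κ) (hδ : 0 < δ) (hK : 0 < K) :
    ∀ᶠ H : ℕ in atTop, K * ((Nat.log 2 ⌊(H : ℝ) ^ κ⌋₊ + 1) * (1 + Real.log H)) ≤ (H : ℝ) ^ δ := by
  have hlog2 : 0 < Real.log 2 := Real.log_pos (by norm_num)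
  set C : ℝ := κ / Real.log 2 + 1 with hC
  have hC0 : 0 < C := by rw [hC]; positivity
  filter_upwards [Pool.Agent.TH42.LA.log_pow_le 2 δ (K * (C * 4)) hδ (by positivity),
    eventually_ge_atTop 3] with H hH1 hH3
  have hHR : (3 : ℝ) ≤ H := by exact_mod_cast hH3
  have hH0 : (0 : ℝ) < H := by linarith
  have hlog1 : 1 ≤ Real.log H := by
    rw [Real.le_log_iff_exp_le hH0]
    have := Real.exp_one_lt_d9
    linarith
  have hfl : ⌊(H : ℝ) ^ κ⌋₊ ≠ 0 := by
    have h1 : (1 : ℝ) ≤ (H : ℝ) ^ κ := Real.one_le_rpow (by linarith) (by linarith)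
    have h2 : 1 ≤ ⌊(H : ℝ) ^ κ⌋₊ := Nat.le_floor (by simpa using h1)
    omega
  set J : ℕ := Nat.log 2 ⌊(H : ℝ) ^ κ⌋₊ with hJ
  have h2J : (2 : ℝ) ^ J ≤ (H : ℝ) ^ κ := by
    have h1 : 2 ^ J ≤ ⌊(H : ℝ) ^ κ⌋₊ := Nat.pow_log_le_self 2 hfl
    have h2 : ((2 ^ J : ℕ) : ℝ) ≤ (⌊(H : ℝ) ^ κ⌋₊ : ℝ) := by exact_mod_cast h1
    push_cast at h2
    exact h2.trans (Nat.floor_le (by positivity))
  have h1 : (J : ℝ) * Real.log 2 ≤ κ * Real.log H := by
    rw [← Real.log_pow, ← Real.log_rpow hH0]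
    exact Real.log_le_log (by positivity) h2J
  have h2 : (J : ℝ) + 1 ≤ C * Real.log H := by
    have h3 : (J : ℝ) ≤ κ * Real.log H / Real.log 2 := by
      rw [le_div_iff₀ hlog2]
      exact h1
    have h4 : C * Real.log H = κ * Real.log H / Real.log 2 + Real.log H := by
      rw [hC]
      field_simp
    rw [h4]
    linarith
  have h3 : ((J : ℝ) + 1) * (1 + Real.log H) ≤ C * 4 * Real.log H ^ (2 : ℝ) := by
    rw [Real.rpow_two]
    calc ((J : ℝ) + 1) * (1 + Real.log H) ≤ (C * Real.log H) * (2 * Real.log H) :=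
          mul_le_mul h2 (by linarith) (by linarith) (by positivity)
      _ = C * 2 * Real.log H ^ 2 := by ring
      _ ≤ C * 4 * Real.log H ^ 2 := by
          refine mul_le_mul_of_nonneg_right ?_ (by positivity)
          linarith
  calc K * (((J : ℝ) + 1) * (1 + Real.log H)) ≤ K * (C * 4 * Real.log H ^ (2 : ℝ)) :=
        mul_le_mul_of_nonneg_left h3 hK.le
    _ = K * (C * 4) * Real.log H ^ (2 : ℝ) := by ring
    _ ≤ _ := hH1

open Classical in
/-- **Lang's inequality for almost all elements of a number field.** Let `ω₁, …, ω_n` be real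
algebraic numbers which together with `1` are linearly independent over the rationals (for example
`1, ω₁, …, ω_n` a basis of a real number field of degree `n + 1`), let `κ < n + 1` (any `κ` when
`n = 1`) and `ε, η > 0`. Then there is `c > 0` such that for all `H ≥ 1` all but at most
`η H ^ (n + 2)` of the integer tuples `(b, a, y₁, …, y_n)`, `1 ≤ b ≤ H`, `|a| ≤ H`, `|y_i| ≤ H`,
`y ≠ 0`, give an algebraic number `ξ = (a + ∑ y_i ω_i) / b` with
`|ξ - p/q| > c / (q² (log q)^(1+ε))` for all integers `p` and all `2 ≤ q ≤ H ^ κ`. -/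
theorem result (n : ℕ) (hn : 1 ≤ n) (ω : Fin n → ℝ) (halg : ∀ i, IsAlgebraic ℚ (ω i))
    (hlin : LinearIndependent ℚ (Fin.cons (1 : ℝ) ω : Fin (n + 1) → ℝ))
    (κ ε η : ℝ) (hκ : n = 1 ∨ κ < n + 1) (hε : 0 < ε) (hη : 0 < η) :
    ∃ c : ℝ, 0 < c ∧ ∀ H : ℕ, 1 ≤ H →
      (((Icc 1 H ×ˢ Icc (-(H : ℤ)) H ×ˢ Fintype.piFinset (fun _ : Fin n => Icc (-(H : ℤ)) H)).filter
        (fun x : ℕ × ℤ × (Fin n → ℤ) => x.2.2 ≠ 0 ∧ ∃ (p : ℤ) (q : ℕ), 2 ≤ q ∧
          (q : ℝ) ≤ (H : ℝ) ^ κ ∧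
          |((x.2.1 : ℝ) + ∑ i, (x.2.2 i : ℝ) * ω i) / x.1 - (p : ℝ) / q| ≤
            c / ((q : ℝ) ^ 2 * Real.log q ^ (1 + ε)))).card : ℝ) ≤
      η * (H : ℝ) ^ (n + 2) := by
  have hrel := int_rel ω hlin
  set κ' : ℝ := max κ 1 with hκ'
  have hκ1 : 1 ≤ κ' := le_max_right _ _
  have hκκ : κ ≤ κ' := le_max_left _ _
  have hκ2 : n = 1 ∨ κ' < n + 1 := by
    rcases hκ with h | h
    · exact Or.inl h
    · right
      have : (1 : ℝ) ≤ n := by exact_mod_cast hn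
      exact max_lt h (by linarith)
  obtain ⟨δ, hδ, hδ1, hfew⟩ := few_both n hn ω halg hrel κ' hκ1 hκ2
  set L : ℝ := (2 / Real.log 2) ^ (1 + ε) with hL
  have hlog2 : 0 < Real.log 2 := Real.log_pos (by norm_num)
  have hL0 : 0 < L := by rw [hL]; positivity
  set Z : ℝ := ∑' k : ℕ, 1 / ((k : ℝ) + 1) ^ (1 + ε) with hZ
  have hZ0 : 0 ≤ Z := tsum_nonneg fun k => by positivity
  set m0 : ℝ := min 1 (η / (4 * 64 * 3 ^ n * (Z + 1))) with hm0
  have hm00 : 0 < m0 := lt_min one_pos (by positivity)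
  set c1 : ℝ := m0 / L with hc1
  have hc10 : 0 < c1 := by rw [hc1]; positivity
  have hc1L : c1 * L = m0 := by rw [hc1]; field_simp
  have hmain : 64 * m0 * Z * 3 ^ n ≤ η / 4 := by
    have h1 : m0 ≤ η / (4 * 64 * 3 ^ n * (Z + 1)) := min_le_right _ _
    calc 64 * m0 * Z * 3 ^ n ≤ 64 * (η / (4 * 64 * 3 ^ n * (Z + 1))) * (Z + 1) * 3 ^ n := by
          refine mul_le_mul_of_nonneg_right ?_ (by positivity)
          refine mul_le_mul (mul_le_mul_of_nonneg_left h1 (by norm_num)) (by linarith) hZ0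
            (by positivity)
      _ = η / 4 := by
          field_simp
  obtain ⟨H0, hH0⟩ := eventually_atTop.mp ((hfew (η / 12) (by positivity)).and
    (err κ' δ (8 * 3 ^ n * (4 / η)) hκ1 hδ (by positivity)))
  -- the small heights
  set U : Finset ℝ := ((Icc 1 H0 ×ˢ Icc (-(H0 : ℤ)) H0 ×ˢ bx n H0).filter
    (fun x : ℕ × ℤ × (Fin n → ℤ) => x.2.2 ≠ 0)).image
      (fun x => ((x.2.1 : ℝ) + ∑ i, (x.2.2 i : ℝ) * ω i) / x.1) with hU
  obtain ⟨c2, hc2, hsmall⟩ := fin_irr U (by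
    intro ξ hξ
    rw [hU, mem_image] at hξ
    obtain ⟨x, hx, rfl⟩ := hξ
    rw [mem_filter, mem_product, mem_Icc] at hx
    exact irr_elt ω hrel x.1 hx.1.1.1 x.2.1 x.2.2 hx.2) ⌊(H0 : ℝ) ^ κ'⌋₊ ε hε
  refine ⟨min c1 c2, lt_min hc10 hc2, fun H hH => ?_⟩
  have hHR1 : (1 : ℝ) ≤ H := by exact_mod_cast hH
  have hHpos : (0 : ℝ) < H := by linarith
  have hpos : ∀ q : ℕ, 2 ≤ q → 0 < (q : ℝ) ^ 2 * Real.log q ^ (1 + ε) := by
    intro q hq
    have h2 : (2 : ℝ) ≤ q := by exact_mod_cast hq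
    have hlog : 0 < Real.log q := Real.log_pos (by linarith)
    positivity
  rcases lt_or_ge H H0 with h | h
  · -- no bad tuples
    rw [Finset.filter_eq_empty_iff.mpr, Finset.card_empty, Nat.cast_zero]
    · positivity
    · rintro ⟨b, a, y⟩ hx ⟨hy, p, q, hq2, hqκ, hle⟩
      rw [mem_product, mem_product, mem_Icc, mem_Icc] at hx
      obtain ⟨hb, ha, hyb⟩ := hx
      simp only at hb ha hyb hy hle
      have hξU : ((a : ℝ) + ∑ i, (y i : ℝ) * ω i) / b ∈ U := by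
        rw [hU, mem_image]
        refine ⟨(b, a, y), ?_, rfl⟩
        rw [mem_filter, mem_product, mem_product, mem_Icc, mem_Icc]
        have ha1 : a ∈ Icc (-(H0 : ℤ)) H0 := by
          rw [mem_Icc]
          constructor <;> omega
        have hy1 : y ∈ bx n H0 := by
          unfold bx
          rw [Fintype.mem_piFinset] at hyb ⊢
          intro i
          have := hyb i
          rw [mem_Icc] at this ⊢
          constructor <;> omega
        exact ⟨⟨⟨hb.1, by omega⟩, mem_Icc.mp ha1, hy1⟩, hy⟩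
      have hqN : q ≤ ⌊(H0 : ℝ) ^ κ'⌋₊ := by
        apply Nat.le_floor
        have h1 : (H : ℝ) ≤ H0 := by exact_mod_cast h.le
        calc (q : ℝ) ≤ (H : ℝ) ^ κ := hqκ
          _ ≤ (H : ℝ) ^ κ' := Real.rpow_le_rpow_of_exponent_le hHR1 hκκ
          _ ≤ (H0 : ℝ) ^ κ' := Real.rpow_le_rpow hHpos.le h1 (by linarith)
      have h1 := hsmall _ hξU p q hq2 hqN
      have h2 := div_le_div_of_nonneg_right (min_le_right c1 c2) (hpos q hq2).le
      linarith
  · obtain ⟨hE, herr⟩ := hH0 H h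
    set Ex : Finset (Fin n → ℤ) := (bx n H).filter (fun y => Exc ω κ' δ H y) with hEx
    have hExcard : (Ex.card : ℝ) ≤ η / 12 * (H : ℝ) ^ n :=
      hE Ex (Finset.filter_subset _ _) fun y hy => (mem_filter.mp hy).2
    set Bd : (Fin n → ℤ) → Finset (ℕ × ℤ) := fun y => (Icc 1 H ×ˢ Icc (-(H : ℤ)) H).filter
      (fun x => ∃ (p : ℤ) (q : ℕ), 2 ≤ q ∧ (q : ℝ) ≤ (H : ℝ) ^ κ' ∧
        |((x.2 : ℝ) + ∑ i, (y i : ℝ) * ω i) / x.1 - (p : ℝ) / q| ≤
          c1 / ((q : ℝ) ^ 2 * Real.log q ^ (1 + ε))) with hBd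
    set Tot := (Icc 1 H ×ˢ Icc (-(H : ℤ)) H ×ˢ
      Fintype.piFinset (fun _ : Fin n => Icc (-(H : ℤ)) H)).filter
        (fun x : ℕ × ℤ × (Fin n → ℤ) => x.2.2 ≠ 0 ∧ ∃ (p : ℤ) (q : ℕ), 2 ≤ q ∧
          (q : ℝ) ≤ (H : ℝ) ^ κ ∧
          |((x.2.1 : ℝ) + ∑ i, (x.2.2 i : ℝ) * ω i) / x.1 - (p : ℝ) / q| ≤
            min c1 c2 / ((q : ℝ) ^ 2 * Real.log q ^ (1 + ε))) with hTot
    have hsub : Tot ⊆ (Icc 1 H ×ˢ Icc (-(H : ℤ)) H ×ˢ Ex) ∪
        ((bx n H) \ Ex).biUnion (fun y => (Bd y).image (fun x => (x.1, x.2, y))) := by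
      rintro ⟨b, a, y⟩ hx
      rw [hTot, mem_filter, mem_product, mem_product] at hx
      obtain ⟨⟨hb, ha, hyb⟩, hy, p, q, hq2, hqκ, hle⟩ := hx
      simp only at hb ha hyb hy hle
      rw [mem_union]
      by_cases hyE : y ∈ Ex
      · left
        rw [mem_product, mem_product]
        exact ⟨hb, ha, hyE⟩
      · right
        rw [mem_biUnion]
        refine ⟨y, Finset.mem_sdiff.mpr ⟨hyb, hyE⟩, ?_⟩
        rw [mem_image]
        refine ⟨(b, a), ?_, rfl⟩
        simp only [hBd]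
        rw [mem_filter, mem_product]
        refine ⟨⟨hb, ha⟩, p, q, hq2, ?_, hle.trans ?_⟩
        · exact hqκ.trans (Real.rpow_le_rpow_of_exponent_le hHR1 hκκ)
        · exact div_le_div_of_nonneg_right (min_le_left _ _) (hpos q hq2).le
    have hcardN : Tot.card ≤ (Icc 1 H ×ˢ Icc (-(H : ℤ)) H ×ˢ Ex).card +
        ∑ y ∈ (bx n H) \ Ex, (Bd y).card := by
      refine (Finset.card_le_card hsub).trans ((Finset.card_union_le _ _).trans ?_)
      refine Nat.add_le_add_left ?_ _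
      exact Finset.card_biUnion_le.trans (Finset.sum_le_sum fun y _ => Finset.card_image_le)
    have hcard : (Tot.card : ℝ) ≤ H * ((2 * H + 1) * Ex.card) +
        ∑ y ∈ (bx n H) \ Ex, ((Bd y).card : ℝ) := by
      have h1 : (Icc 1 H ×ˢ Icc (-(H : ℤ)) H ×ˢ Ex).card = H * ((2 * H + 1) * Ex.card) := by
        rw [card_product, card_product, Nat.card_Icc, Int.card_Icc]
        have : ((H : ℤ) + 1 - -(H : ℤ)).toNat = 2 * H + 1 := by omega
        rw [this, Nat.add_sub_cancel]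
      rw [h1] at hcardN
      exact_mod_cast hcardN
    -- the non exceptional points
    have hE1 : ∀ y ∈ (bx n H) \ Ex, ((Bd y).card : ℝ) ≤
        64 * m0 * Z * (H : ℝ) ^ 2 +
        8 * H * (H : ℝ) ^ (1 - δ) * (Nat.log 2 ⌊(H : ℝ) ^ κ'⌋₊ + 1) * (1 + Real.log H) := by
      intro y hy
      rw [Finset.mem_sdiff, hEx, mem_filter] at hy
      have hnE : ¬ Exc ω κ' δ H y := fun h => hy.2 ⟨hy.1, h⟩
      have h1 := perTheta κ' ε δ c1 hε hδ hδ1 hc10 (by rw [← hL, hc1L]; exact min_le_left _ _) H hH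
        (∑ i, (y i : ℝ) * ω i) (by
          intro k hk q hq1 hq2 m
          by_contra hlt
          push Not at hlt
          exact hnE ⟨k, hk, q, hq1, hq2, m, hlt⟩) (Bd y) (by
          intro x hx
          simp only [hBd] at hx
          rw [mem_filter, mem_product, mem_Icc] at hx
          exact ⟨hx.1.1.1, hx.1.1.2, hx.1.2, hx.2⟩)
      rw [← hL, hc1L, ← hZ] at h1
      exact h1
    have hbxc : (((bx n H) \ Ex).card : ℝ) ≤ 3 ^ n * (H : ℝ) ^ n := by
      have h1 : (((bx n H) \ Ex).card : ℝ) ≤ ((bx n H).card : ℝ) := by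
        exact_mod_cast Finset.card_le_card Finset.sdiff_subset
      rw [bx_card] at h1
      refine h1.trans ?_
      rw [← mul_pow]
      exact pow_le_pow_left₀ (by positivity) (by linarith) n
    have hlogH : 0 ≤ Real.log H := Real.log_nonneg hHR1
    have hA : ∑ y ∈ (bx n H) \ Ex, ((Bd y).card : ℝ) ≤ η / 4 * (H : ℝ) ^ (n + 2) +
        η / 4 * (H : ℝ) ^ (n + 2) := by
      refine (Finset.sum_le_sum hE1).trans ?_
      rw [Finset.sum_const, nsmul_eq_mul]
      refine (mul_le_mul_of_nonneg_right hbxc (by positivity)).trans ?_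
      rw [mul_add]
      refine add_le_add ?_ ?_
      · calc 3 ^ n * (H : ℝ) ^ n * (64 * m0 * Z * (H : ℝ) ^ 2) =
              (64 * m0 * Z * 3 ^ n) * (H : ℝ) ^ (n + 2) := by ring
          _ ≤ η / 4 * (H : ℝ) ^ (n + 2) := mul_le_mul_of_nonneg_right hmain (by positivity)
      · set W : ℝ := ((Nat.log 2 ⌊(H : ℝ) ^ κ'⌋₊ : ℝ) + 1) * (1 + Real.log H) with hW
        have h1 : 8 * 3 ^ n * W ≤ η / 4 * (H : ℝ) ^ δ := by
          have h2 := mul_le_mul_of_nonneg_left herr (by positivity : 0 ≤ η / 4)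
          have h3 : η / 4 * (8 * 3 ^ n * (4 / η) * W) = 8 * 3 ^ n * W := by field_simp
          rw [h3] at h2
          exact h2
        have h4 : (H : ℝ) ^ (1 - δ) * (H : ℝ) ^ δ = H := by
          rw [← Real.rpow_add hHpos]
          rw [show 1 - δ + δ = 1 by ring, Real.rpow_one]
        calc 3 ^ n * (H : ℝ) ^ n * (8 * H * (H : ℝ) ^ (1 - δ) *
              (Nat.log 2 ⌊(H : ℝ) ^ κ'⌋₊ + 1) * (1 + Real.log H)) =
              ((H : ℝ) ^ n * H * (H : ℝ) ^ (1 - δ)) * (8 * 3 ^ n * W) := by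
              rw [hW]
              ring
          _ ≤ ((H : ℝ) ^ n * H * (H : ℝ) ^ (1 - δ)) * (η / 4 * (H : ℝ) ^ δ) :=
              mul_le_mul_of_nonneg_left h1 (by positivity)
          _ = η / 4 * ((H : ℝ) ^ n * H * ((H : ℝ) ^ (1 - δ) * (H : ℝ) ^ δ)) := by ring
          _ = η / 4 * (H : ℝ) ^ (n + 2) := by
              rw [h4]
              ring
    have hB2 : (H : ℝ) * ((2 * H + 1) * Ex.card) ≤ η / 4 * (H : ℝ) ^ (n + 2) := by
      calc (H : ℝ) * ((2 * H + 1) * Ex.card) ≤ H * ((3 * H) * (η / 12 * (H : ℝ) ^ n)) := by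
            refine mul_le_mul_of_nonneg_left ?_ hHpos.le
            exact mul_le_mul (by linarith) hExcard (Nat.cast_nonneg _) (by positivity)
        _ = η / 4 * (H : ℝ) ^ (n + 2) := by ring
    have hpos2 : 0 ≤ η / 4 * (H : ℝ) ^ (n + 2) := by positivity
    linarith

end Pool.Agent.Results.MP_c307ca_nt.AlmostAllFieldElements
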