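import Pool.Agent.Q138.PS.YI

/-!
Lang's conjecture for fractions whose denominators are close to the numbers `c n ^ j α ^ n`: there are no good approximations
with such denominators to any real algebraic number of bounded degree and of height at most a power of the denominator.
-/

set_option autoImplicit false

namespace Pool.Agent.Results.MP_c307ca_nt.DenominatorsNearPowers

open Filter Polynomial
open Pool.Agent.Q138.PS (NearPow)

/-- `ξ` is a root of a nonzero integral polynomial of degree at most `d` with coefficients of size at most `H`. -/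
def HeightLe (d : ℕ) (H ξ : ℝ) : Prop :=
  ∃ P : ℤ[X], P ≠ 0 ∧ P.natDegree ≤ d ∧ (∀ i, |(P.coeff i : ℝ)| ≤ H) ∧ aeval ξ P = 0

/-- All the fractions `p / q` in lowest terms are far from all the algebraic numbers `ξ` of degree at most `d` and height at
most `M q ^ κ`: the distance is more than `M q ^ (δ - 2)`. -/
def Apart (d M : ℕ) (κ δ : ℝ) (q : ℕ) : Prop :=
  ∀ ξ : ℝ, HeightLe d (M * (q : ℝ) ^ κ) ξ → ∀ p : ℤ, Int.gcd p q = 1 → M * (q : ℝ) ^ (δ - 2) < |ξ - p / q|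

theorem result :
    (∀ (d : ℕ) (κ δ l : ℝ), 0 ≤ κ → 0 ≤ δ → l < 1 →
      ∃ Z : Set ℝ, dimH Z ≤ ENNReal.ofReal ((κ * (d + 1) + δ) / (1 - l)) ∧ ∀ α : ℝ, 1 < α → α ∉ Z →
        ∀ (M : ℕ) (c : ℝ), 0 < c → IsAlgebraic ℚ c → ∀ (j : ℤ) (D : ℝ), ∀ᶠ n : ℕ in atTop,
          ∀ q : ℕ, 1 ≤ q → NearPow α c j D l n q → Apart d M κ δ q) ∧
    (∃ Z : Set ℝ, dimH Z = 0 ∧ ∀ α : ℝ, 1 < α → α ∉ Z → ∀ (d : ℕ) (l : ℝ), l < 1 → ∃ κ : ℝ, 0 < κ ∧
      ∀ c : ℝ, 0 < c → IsAlgebraic ℚ c → ∀ (j : ℤ) (D : ℝ), ∀ᶠ n : ℕ in atTop,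
        ∀ q : ℕ, 1 ≤ q → NearPow α c j D l n q → Apart d 1 κ κ q) := by
  have hA : ∀ (d M : ℕ) (κ δ : ℝ) (q : ℕ), ¬ Pool.Agent.Q138.PS.Lg.Bad d M κ δ q → Apart d M κ δ q := by
    intro d M κ δ q h ξ h1 p hp
    by_contra h2
    exact h ⟨ξ, h1, p, hp, not_lt.1 h2⟩
  constructor
  · intro d κ δ l hκ hδ hl
    obtain ⟨Z, hZ, hg⟩ := Pool.Agent.Q138.PS.pow_alg (ι := ℕ)
      (fun M => {q | 1 ≤ q ∧ Pool.Agent.Q138.PS.Lg.Bad d M κ δ q}) (κ * (d + 1) + δ) l (by positivity) hl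
      (fun M ε hε => by
        obtain ⟨C, hC⟩ := Pool.Agent.Q138.PS.Lg.count d M κ δ hκ hδ ε hε
        exact ⟨|C|, Pool.Agent.Q138.PS.cn_pow (by positivity) hC⟩)
    refine ⟨Z, hZ, fun α hα hαZ M c hc hca j D => ?_⟩
    filter_upwards [hg α hα hαZ M c hc hca j D] with n hn q hq hnear
    exact hA d M κ δ q fun hb => hn q hnear ⟨hq, hb⟩
  · set k' : ℕ → ℕ → ℝ := fun d k => 1 / (((k : ℝ) + 1) * (d + 3)) with hk'
    have hpos : ∀ d k, 0 < k' d k := fun d k => by positivity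
    obtain ⟨Z, hZ, hg⟩ := Pool.Agent.Q138.PS.pow_zero_inf (ι := ℕ) (κ := Unit)
      (fun d _ k q => Pool.Agent.Q138.PS.Lg.Bad d 1 (k' d k) (k' d k) q) (fun d _ k => by
        obtain ⟨C, hC⟩ := Pool.Agent.Q138.PS.Lg.count d 1 (k' d k) (k' d k) (hpos d k).le (hpos d k).le (k' d k) (hpos d k)
        refine ⟨C, fun Y hY => ?_⟩
        have h1 := hC Y hY
        have h2 : k' d k * (d + 1) + k' d k + k' d k = 1 / ((k : ℝ) + 1) := by
          simp only [hk']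
          field_simp
          ring
        rwa [h2] at h1)
    refine ⟨Z, hZ, fun α hα hαZ d l hl => ?_⟩
    obtain ⟨k, hk⟩ := hg α hα hαZ d l hl
    refine ⟨k' d k, hpos d k, fun c hc hca j D => ?_⟩
    filter_upwards [hk () c hc hca j D] with n hn q hq hnear
    exact hA d 1 _ _ q (hn q hq hnear)

end Pool.Agent.Results.MP_c307ca_nt.DenominatorsNearPowers
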