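import Mathlib
import Pool.Agent.Q263.WE.Bc2

/-!
Lang's inequality for all the powers `(m + x) ^ n` of almost all the translates `m + x` of one
real algebraic irrational (or non-Liouville) number `x`, with denominators up to
`exp ((log M) ^ (1 - a))` and exponents up to `(log M) ^ κ`.
-/

set_option autoImplicit false

open Finset Filter Topology

namespace Pool.Agent.Results.MP_c307ca_nt.PowersOfTranslates

open Pool.Agent.Q263.WE

lemma not_liouville_of (x : ℝ) (h : IsAlgebraic ℚ x ∨ ¬ Liouville x) : ¬ Liouville x := by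
  rcases h with h | h
  · intro hL
    exact hL.transcendental ((IsFractionRing.isAlgebraic_iff ℤ ℚ ℝ).2 h)
  · exact h

open Classical in
lemma ncard_le (M : ℕ) (P : ℕ → Prop) :
    ({m : ℕ | 1 ≤ m ∧ m ≤ M ∧ P m}.ncard : ℝ) ≤
      ((range M).filter (fun m : ℕ => P (m + 1))).card := by
  have h : {m : ℕ | 1 ≤ m ∧ m ≤ M ∧ P m} =
      (fun m : ℕ => m + 1) '' (((range M).filter (fun m : ℕ => P (m + 1)) : Finset ℕ) : Set ℕ) := by
    ext m
    simp only [Set.mem_ofPred_eq, Set.mem_image, Finset.coe_filter, Finset.mem_range]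
    constructor
    · rintro ⟨h1, h2, h3⟩
      refine ⟨m - 1, ⟨by omega, ?_⟩, by omega⟩
      have e : m - 1 + 1 = m := by omega
      rw [e]
      exact h3
    · rintro ⟨k, ⟨h1, h2⟩, rfl⟩
      exact ⟨by omega, by omega, h2⟩
  rw [h]
  have := Set.ncard_image_le (f := fun m : ℕ => m + 1)
    (Finset.finite_toSet ((range M).filter (fun m : ℕ => P (m + 1))))
  rw [Set.ncard_coe_finset] at this
  exact_mod_cast this

theorem result (a : ℝ) (ha0 : 0 < a) (ha1 : a < 1) :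
    ∃ κ : ℝ, 0 < κ ∧ ∀ x : ℝ, Irrational x → (IsAlgebraic ℚ x ∨ ¬ Liouville x) →
      (∀ ε η : ℝ, 0 < ε → 0 < η → ∃ c : ℝ, 0 < c ∧ ∀ᶠ M : ℕ in atTop,
        ({m : ℕ | 1 ≤ m ∧ m ≤ M ∧ ¬ ∀ n q : ℕ, 2 ≤ n → (n : ℝ) ≤ (Real.log M) ^ κ →
            2 ≤ q → (q : ℝ) ≤ Real.exp ((Real.log M) ^ (1 - a)) → ∀ p : ℤ,
              c / ((n : ℝ) ^ (1 + ε) * ((q : ℝ) ^ 2 * (Real.log q) ^ (1 + ε))) <
                |((m : ℝ) + x) ^ n - p / q|}.ncard : ℝ) ≤ η * M) ∧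
      (∀ᶠ M : ℕ in atTop, ∀ δ : ℕ → ℕ → ℝ, (∀ n q, 0 ≤ δ n q) →
        ({m : ℕ | 1 ≤ m ∧ m ≤ M ∧ ∃ n q : ℕ, 2 ≤ n ∧ (n : ℝ) ≤ (Real.log M) ^ κ ∧
            1 ≤ q ∧ (q : ℝ) ≤ Real.exp ((Real.log M) ^ (1 - a)) ∧
              ∃ p : ℤ, |(q : ℝ) * ((m : ℝ) + x) ^ n - p| ≤ δ n q}.ncard : ℝ) ≤
          M * (2 * ∑ n ∈ Finset.Icc 2 ⌊(Real.log M) ^ κ⌋₊,
            ∑ q ∈ Finset.Icc 1 ⌊Real.exp ((Real.log M) ^ (1 - a))⌋₊, δ n q +
              Real.exp (-(Real.log M) ^ (1 - a)))) := by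
  classical
  obtain ⟨κ, hκ, hbc⟩ := bc a ha0 ha1
  refine ⟨κ, hκ, fun x hirr hx => ?_⟩
  have hL := not_liouville_of x hx
  have h1 := hbc x hirr hL
  refine ⟨?_, ?_⟩
  · intro ε η hε hη
    obtain ⟨c, hc, h2⟩ := lang a κ ha1 x h1 ε η hε hη
    refine ⟨c, hc, h2.mono fun M hM => le_trans (ncard_le M _) (le_trans (le_of_eq ?_) hM)⟩
    congr!
  · refine h1.mono fun M hM δ hδ => le_trans (ncard_le M _) (le_trans (le_of_eq ?_) (hM δ hδ))
    rfl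

end Pool.Agent.Results.MP_c307ca_nt.PowersOfTranslates
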