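import Mathlib

/-!
# Lang's inequality for the roots of `f(x) = m`, for almost all integers `m` and all polynomials of a sequence at once

(1) For a real polynomial `f` of degree `n ≥ 2` and an arbitrary approximation function `ψ` at most
`C (M ∑_{q ≤ Q} q ψ(q) + M^{1/n} Q²)` of the integers `0 ≤ m ≤ M` are values `m = f(ξ)` at a real number `ξ` with
`|ξ - p/q| ≤ ψ(q)` for some `1 ≤ q ≤ Q`, with a constant `C` which depends on `f` only.

(2) Let `f_0, f_1, …` be an arbitrary sequence of real polynomials of degrees `n_j ≥ 2`, for instance all the polynomials with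
algebraic real coefficients. For `ε, η > 0` and `κ < 1/2` there are constants `c_j > 0`, integers `m_j` and a set `E` with at
most `η M` elements up to `M` for every `M` such that for `m ∉ E` and all `j` with `m ≥ m_j` all the real roots `ξ` of
`f_j(x) = m` satisfy `|ξ - p/q| > c_j / (q² (log q)^{1+ε})` for all `p` and all `2 ≤ q ≤ m^{κ (1 - 1/n_j)}`.

Proof: if `ξ` is close to `p/q`, then `m = f(ξ)` is close to `f(p/q)`; an interval of length `2 W` contains at most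
`2 W + 1` integers, and there are `O(q M^{1/n})` fractions with denominator `q` in the range of `ξ`.
-/

set_option autoImplicit false
set_option linter.all false

namespace Pool.Agent.Results.MP_c307ca_nt.RootsOfPolynomials

open Finset Polynomial Filter
open scoped Topology

/-! ### growth of polynomials -/

lemma growth_top (f : ℝ[X]) (hf : f ≠ 0) :
    ∃ C : ℝ, 0 < C ∧ ∃ R : ℝ, ∀ x : ℝ, R ≤ x → |x| ^ f.natDegree ≤ C * |f.eval x| := by
  have h1 := Polynomial.isBigO_of_degree_le (X ^ f.natDegree : ℝ[X]) f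
    (by rw [degree_X_pow, degree_eq_natDegree hf])
  obtain ⟨C, hC, h2⟩ := h1.exists_pos
  rw [Asymptotics.IsBigOWith] at h2
  obtain ⟨R, hR⟩ := eventually_atTop.1 h2
  refine ⟨C, hC, R, fun x hx => ?_⟩
  have h3 := hR x hx
  simpa [abs_pow] using h3

lemma growth (f : ℝ[X]) (hf : f ≠ 0) :
    ∃ C : ℝ, 0 < C ∧ ∃ R : ℝ, 1 ≤ R ∧ ∀ x : ℝ, R ≤ |x| → |x| ^ f.natDegree ≤ C * |f.eval x| := by
  obtain ⟨C₁, hC₁, R₁, h1⟩ := growth_top f hf
  have hd : (f.comp (-X)).natDegree = f.natDegree := by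
    rw [natDegree_comp]
    simp
  have hg : f.comp (-X) ≠ 0 := by
    intro h
    apply hf
    have h2 : (f.comp (-X)).comp (-X) = f := by
      rw [comp_assoc]
      simp
    rw [← h2, h]
    simp
  obtain ⟨C₂, hC₂, R₂, h2⟩ := growth_top (f.comp (-X)) hg
  refine ⟨max C₁ C₂, lt_max_of_lt_left hC₁, max 1 (max R₁ R₂), le_max_left _ _, fun x hx => ?_⟩
  rcases le_total 0 x with h | h
  · rw [abs_of_nonneg h] at hx
    exact (h1 x (le_trans (by simp) hx)).trans (mul_le_mul_of_nonneg_right (le_max_left _ _) (abs_nonneg _))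
  · rw [abs_of_nonpos h] at hx
    have h3 := h2 (-x) (le_trans (by simp) hx)
    rw [hd, abs_neg] at h3
    have h4 : (f.comp (-X)).eval (-x) = f.eval x := by simp [eval_comp]
    rw [h4] at h3
    exact h3.trans (mul_le_mul_of_nonneg_right (le_max_right _ _) (abs_nonneg _))

lemma lip (f : ℝ[X]) : ∃ C : ℝ, 1 ≤ C ∧ ∀ T : ℝ, 1 ≤ T → ∀ x y : ℝ, |x| ≤ T → |y| ≤ T →
    |f.eval x - f.eval y| ≤ C * T ^ (f.natDegree - 1) * |x - y| := by
  have h0 : 0 ≤ ∑ i ∈ range (f.natDegree + 1), |f.coeff i| * (i : ℝ) := sum_nonneg fun i _ => by positivity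
  refine ⟨1 + ∑ i ∈ range (f.natDegree + 1), |f.coeff i| * i, by linarith, ?_⟩
  intro T hT x y hx hy
  rw [eval_eq_sum_range, eval_eq_sum_range, ← sum_sub_distrib]
  have hT0 : 0 ≤ T ^ (f.natDegree - 1) * |x - y| := by positivity
  have h1 : ∀ i ∈ range (f.natDegree + 1), |f.coeff i * x ^ i - f.coeff i * y ^ i| ≤
      |f.coeff i| * i * (T ^ (f.natDegree - 1) * |x - y|) := by
    intro i hi
    rw [← mul_sub, abs_mul]
    rw [mem_range] at hi
    have h2 := abs_pow_sub_pow_le x y i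
    have h3 : max |x| |y| ^ (i - 1) ≤ T ^ (f.natDegree - 1) :=
      (pow_le_pow_left₀ (le_trans (abs_nonneg x) (le_max_left _ _)) (max_le hx hy) _).trans
        (pow_le_pow_right₀ hT (by omega))
    calc |f.coeff i| * |x ^ i - y ^ i| ≤ |f.coeff i| * (|x - y| * i * T ^ (f.natDegree - 1)) := by
          apply mul_le_mul_of_nonneg_left _ (abs_nonneg _)
          exact h2.trans (mul_le_mul_of_nonneg_left h3 (by positivity))
      _ = _ := by ring
  calc |∑ i ∈ range (f.natDegree + 1), (f.coeff i * x ^ i - f.coeff i * y ^ i)|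
      ≤ ∑ i ∈ range (f.natDegree + 1), |f.coeff i * x ^ i - f.coeff i * y ^ i| := abs_sum_le_sum_abs _ _
    _ ≤ ∑ i ∈ range (f.natDegree + 1), |f.coeff i| * i * (T ^ (f.natDegree - 1) * |x - y|) := sum_le_sum h1
    _ = (∑ i ∈ range (f.natDegree + 1), |f.coeff i| * i) * (T ^ (f.natDegree - 1) * |x - y|) := by
        rw [sum_mul]
    _ ≤ _ := by
        rw [mul_assoc, add_mul]
        linarith

/-! ### counting -/

lemma near_card (t W : ℝ) (hW : 0 ≤ W) (S : Finset ℕ) (hS : ∀ m ∈ S, |(m : ℝ) - t| ≤ W) :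
    (S.card : ℝ) ≤ 2 * W + 1 := by
  have h1 : S.image (fun m : ℕ => (m : ℤ)) ⊆ Icc ⌈t - W⌉ ⌊t + W⌋ := by
    intro z hz
    obtain ⟨m, hm, rfl⟩ := mem_image.1 hz
    have := abs_le.1 (hS m hm)
    rw [mem_Icc]
    exact ⟨Int.ceil_le.2 (by push_cast; linarith [this.1]), Int.le_floor.2 (by push_cast; linarith [this.2])⟩
  have h2 : S.card ≤ (Icc ⌈t - W⌉ ⌊t + W⌋).card := by
    rw [← card_image_of_injective S (Nat.cast_injective : Function.Injective (fun m : ℕ => (m : ℤ)))]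
    exact card_le_card h1
  rw [Int.card_Icc] at h2
  have h3 : ((⌊t + W⌋ + 1 - ⌈t - W⌉).toNat : ℝ) ≤ 2 * W + 1 := by
    rcases le_total 0 (⌊t + W⌋ + 1 - ⌈t - W⌉) with h | h
    · have h4 : ((⌊t + W⌋ + 1 - ⌈t - W⌉).toNat : ℝ) = ((⌊t + W⌋ + 1 - ⌈t - W⌉ : ℤ) : ℝ) := by
        have h5 : (((⌊t + W⌋ + 1 - ⌈t - W⌉).toNat : ℤ)) = (⌊t + W⌋ + 1 - ⌈t - W⌉ : ℤ) := Int.toNat_of_nonneg h
        exact_mod_cast h5
      rw [h4]
      push_cast
      linarith [Int.floor_le (t + W), Int.le_ceil (t - W)]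
    · rw [Int.toNat_of_nonpos h]
      push_cast
      linarith
  exact le_trans (by exact_mod_cast h2) h3

open Classical in
lemma one_q (f : ℝ[X]) (W T : ℝ) (hT : 1 ≤ T) (hW : 0 ≤ W) (q : ℕ) (hq : 1 ≤ q) (S : Finset ℕ)
    (hS : ∀ m ∈ S, ∃ p : ℤ, |(p : ℝ) / q| ≤ T ∧ |(m : ℝ) - f.eval ((p : ℝ) / q)| ≤ W) :
    (S.card : ℝ) ≤ 3 * q * T * (2 * W + 1) := by
  have hq0 : (0 : ℝ) < q := by exact_mod_cast hq
  have hq1 : (1 : ℝ) ≤ q := by exact_mod_cast hq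
  set L : ℤ := ⌊(q : ℝ) * T⌋ with hL
  have hsub : S ⊆ (Icc (-L) L).biUnion (fun p : ℤ => S.filter (fun m : ℕ => |(m : ℝ) - f.eval ((p : ℝ) / q)| ≤ W)) := by
    intro m hm
    obtain ⟨p, hp, h1⟩ := hS m hm
    rw [mem_biUnion]
    refine ⟨p, ?_, mem_filter.2 ⟨hm, h1⟩⟩
    rw [abs_div, abs_of_pos hq0, div_le_iff₀ hq0] at hp
    have h2 := abs_le.1 hp
    rw [mem_Icc]
    constructor
    · have : -p ≤ L := Int.le_floor.2 (by push_cast; linarith [h2.1])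
      linarith
    · exact Int.le_floor.2 (by linarith [h2.2])
  have hL0 : 0 ≤ L := Int.floor_nonneg.2 (by positivity)
  have hLT : (L : ℝ) ≤ q * T := Int.floor_le _
  have hcard : ((Icc (-L) L).card : ℝ) ≤ 3 * q * T := by
    rw [Int.card_Icc]
    have h5 : (((L + 1 - -L).toNat : ℤ)) = L + 1 - -L := Int.toNat_of_nonneg (by linarith)
    have h6 : ((L + 1 - -L).toNat : ℝ) = 2 * L + 1 := by
      have : (((L + 1 - -L).toNat : ℤ) : ℝ) = ((L + 1 - -L : ℤ) : ℝ) := by rw [h5]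
      have h7 : ((L + 1 - -L).toNat : ℝ) = (((L + 1 - -L).toNat : ℤ) : ℝ) := by push_cast; rfl
      rw [h7, this]
      push_cast
      ring
    rw [h6]
    nlinarith
  calc (S.card : ℝ) ≤ (((Icc (-L) L).biUnion
        (fun p : ℤ => S.filter (fun m : ℕ => |(m : ℝ) - f.eval ((p : ℝ) / q)| ≤ W))).card : ℝ) := by
        exact_mod_cast card_le_card hsub
    _ ≤ ∑ p ∈ Icc (-L) L, ((S.filter (fun m : ℕ => |(m : ℝ) - f.eval ((p : ℝ) / q)| ≤ W)).card : ℝ) := by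
        exact_mod_cast card_biUnion_le
    _ ≤ ∑ p ∈ Icc (-L) L, (2 * W + 1) :=
        sum_le_sum fun p _ => near_card _ W hW _ fun m hm => (mem_filter.1 hm).2
    _ = ((Icc (-L) L).card : ℝ) * (2 * W + 1) := by rw [sum_const, nsmul_eq_mul]
    _ ≤ 3 * q * T * (2 * W + 1) := mul_le_mul_of_nonneg_right hcard (by linarith)

open Classical in
/-- **The count, for an arbitrary approximation function.** -/
theorem count (f : ℝ[X]) (hn : 2 ≤ f.natDegree) : ∃ C : ℝ, 0 < C ∧ ∀ (M Q : ℕ) (ψ : ℕ → ℝ), 1 ≤ M → 1 ≤ Q →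
    (∀ q, 0 ≤ ψ q ∧ ψ q ≤ 1) → ∀ S : Finset ℕ, (∀ m ∈ S, m ≤ M ∧ ∃ ξ : ℝ, f.eval ξ = m ∧
      ∃ (p : ℤ) (q : ℕ), 1 ≤ q ∧ q ≤ Q ∧ |ξ - p / q| ≤ ψ q) →
    (S.card : ℝ) ≤ C * (M * ∑ q ∈ Icc 1 Q, q * ψ q + (M : ℝ) ^ (1 / (f.natDegree : ℝ)) * Q ^ 2) := by
  have hf : f ≠ 0 := by
    rintro rfl
    simp at hn
  set n := f.natDegree with hndef
  have hn0 : n ≠ 0 := by omega
  obtain ⟨G, hG, R, hR, hgrow⟩ := growth f hf
  obtain ⟨C₁, hC₁, hlip⟩ := lip f
  obtain ⟨B, hB⟩ : ∃ B : ℕ, |f.eval 0| + C₁ * R ^ (n - 1) * R ≤ B := exists_nat_ge _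
  set b : ℝ := G ^ (1 / (n : ℝ)) with hb
  have hb0 : 0 ≤ b := by positivity
  have hbn : b ^ n = G := by
    rw [hb, one_div]
    exact Real.rpow_inv_natCast_pow hG.le hn0
  set A : ℝ := b + 1 with hA
  refine ⟨6 * C₁ * A ^ n + 3 * A + (B + 1), by positivity, ?_⟩
  intro M Q ψ hM hQ hψ S hS
  have hM1 : (1 : ℝ) ≤ M := by exact_mod_cast hM
  have hQ1 : (1 : ℝ) ≤ Q := by exact_mod_cast hQ
  set r : ℝ := (M : ℝ) ^ (1 / (n : ℝ)) with hr
  have hr1 : 1 ≤ r := Real.one_le_rpow hM1 (by positivity)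
  have hrn : r ^ n = M := by
    rw [hr, one_div]
    exact Real.rpow_inv_natCast_pow (by linarith) hn0
  set T : ℝ := A * r with hT
  have hT1 : 1 ≤ T := by
    rw [hT, hA]
    nlinarith
  have hTn : T ^ (n - 1) * T = A ^ n * M := by
    rw [← pow_succ, Nat.sub_add_cancel (by omega), hT, mul_pow, hrn]
  -- the large elements
  set S₁ := S.filter (fun m => B < m) with hS₁
  set U : ℕ → Finset ℕ := fun q => S₁.filter (fun m => ∃ p : ℤ, |(p : ℝ) / q| ≤ T ∧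
    |(m : ℝ) - f.eval ((p : ℝ) / q)| ≤ C₁ * T ^ (n - 1) * ψ q) with hU
  have hsub : S₁ ⊆ (Icc 1 Q).biUnion U := by
    intro m hm
    obtain ⟨hmS, hmB⟩ := mem_filter.1 hm
    obtain ⟨hmM, ξ, hξ, p, q, hq, hqQ, hpq⟩ := hS m hmS
    have hmMR : (m : ℝ) ≤ M := by exact_mod_cast hmM
    have hmBR : (B : ℝ) < m := by exact_mod_cast hmB
    rw [mem_biUnion]
    refine ⟨q, mem_Icc.2 ⟨hq, hqQ⟩, mem_filter.2 ⟨hm, p, ?_⟩⟩
    have hξR : R ≤ |ξ| := by
      by_contra hcon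
      push Not at hcon
      have h1 := hlip R hR ξ 0 hcon.le (by simpa using (by linarith : (0 : ℝ) ≤ R))
      rw [sub_zero, hξ] at h1
      have h2 : (m : ℝ) ≤ |f.eval 0| + C₁ * R ^ (n - 1) * R := by
        have h3 : (m : ℝ) - f.eval 0 ≤ C₁ * R ^ (n - 1) * |ξ| := (le_abs_self _).trans h1
        have h4 : C₁ * R ^ (n - 1) * |ξ| ≤ C₁ * R ^ (n - 1) * R := mul_le_mul_of_nonneg_left hcon.le (by positivity)
        linarith [le_abs_self (f.eval 0)]
      linarith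
    have h1 := hgrow ξ hξR
    rw [hξ, abs_of_nonneg (Nat.cast_nonneg m : (0 : ℝ) ≤ (m : ℝ))] at h1
    have h2 : |ξ| ^ n ≤ (b * r) ^ n := by
      rw [mul_pow, hbn, hrn]
      exact h1.trans (mul_le_mul_of_nonneg_left hmMR hG.le)
    have h3 : |ξ| ≤ b * r := (pow_le_pow_iff_left₀ (abs_nonneg _) (by positivity) hn0).1 h2
    have hψ1 := (hψ q).2
    have h4 : |(p : ℝ) / q| ≤ T := by
      have h5 : |(p : ℝ) / q| ≤ |ξ| + |ξ - p / q| := by
        have h6 := abs_sub_abs_le_abs_sub ((p : ℝ) / q) ξ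
        rw [abs_sub_comm] at h6
        linarith
      rw [hT, hA]
      nlinarith
    refine ⟨h4, ?_⟩
    have h5 : |ξ| ≤ T := by
      rw [hT, hA]
      nlinarith
    have h6 := hlip T hT1 ξ ((p : ℝ) / q) h5 h4
    rw [hξ] at h6
    exact h6.trans (mul_le_mul_of_nonneg_left hpq (by positivity))
  have hU2 : ∀ q ∈ Icc 1 Q, ((U q).card : ℝ) ≤ 3 * q * T * (2 * (C₁ * T ^ (n - 1) * ψ q) + 1) := by
    intro q hq
    rw [mem_Icc] at hq
    have := (hψ q).1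
    exact one_q f _ T hT1 (by positivity) q hq.1 _ fun m hm => (mem_filter.1 hm).2
  have hsumq : ∑ q ∈ Icc 1 Q, (q : ℝ) ≤ (Q : ℝ) ^ 2 := by
    calc ∑ q ∈ Icc 1 Q, (q : ℝ) ≤ ∑ q ∈ Icc 1 Q, (Q : ℝ) :=
          sum_le_sum fun q hq => by exact_mod_cast (mem_Icc.1 hq).2
      _ = (Q : ℝ) ^ 2 := by
          rw [sum_const, Nat.card_Icc, nsmul_eq_mul, Nat.add_sub_cancel]
          ring
  set s₀ : ℝ := ∑ q ∈ Icc 1 Q, (q : ℝ) * ψ q with hs₀
  have hs₀0 : 0 ≤ s₀ := sum_nonneg fun q _ => mul_nonneg (Nat.cast_nonneg _) (hψ q).1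
  have hS₁c : (S₁.card : ℝ) ≤ 6 * C₁ * A ^ n * (M * s₀) + 3 * A * (r * Q ^ 2) := by
    calc (S₁.card : ℝ) ≤ (((Icc 1 Q).biUnion U).card : ℝ) := by exact_mod_cast card_le_card hsub
      _ ≤ ∑ q ∈ Icc 1 Q, ((U q).card : ℝ) := by exact_mod_cast card_biUnion_le
      _ ≤ ∑ q ∈ Icc 1 Q, 3 * q * T * (2 * (C₁ * T ^ (n - 1) * ψ q) + 1) := sum_le_sum hU2
      _ = 6 * C₁ * (T ^ (n - 1) * T) * s₀ + 3 * T * ∑ q ∈ Icc 1 Q, (q : ℝ) := by
          rw [hs₀, mul_sum, mul_sum, ← sum_add_distrib]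
          exact sum_congr rfl fun q _ => by ring
      _ ≤ 6 * C₁ * (T ^ (n - 1) * T) * s₀ + 3 * T * (Q : ℝ) ^ 2 := by
          have := mul_le_mul_of_nonneg_left hsumq (by positivity : 0 ≤ 3 * T)
          linarith
      _ = _ := by
          rw [hTn, hT]
          ring
  have hS₂c : ((S.filter (fun m => ¬ B < m)).card : ℝ) ≤ B + 1 := by
    have h1 : S.filter (fun m => ¬ B < m) ⊆ range (B + 1) := by
      intro m hm
      have := (mem_filter.1 hm).2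
      rw [mem_range]
      omega
    have h2 := card_le_card h1
    rw [card_range] at h2
    exact_mod_cast h2
  have hsplit : (S.card : ℝ) = S₁.card + (S.filter (fun m => ¬ B < m)).card := by
    rw [hS₁]
    exact_mod_cast (card_filter_add_card_filter_not (s := S) (fun m => B < m)).symm
  rw [hsplit]
  have hrQ : 1 ≤ r * (Q : ℝ) ^ 2 := by nlinarith
  have hMs : 0 ≤ M * s₀ := by positivity
  have hA0 : 0 ≤ 6 * C₁ * A ^ n := by positivity
  have hA1 : 0 ≤ 3 * A := by positivity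
  have hB0 : (0 : ℝ) ≤ (B : ℝ) + 1 := by positivity
  have e : (6 * C₁ * A ^ n + 3 * A + (B + 1)) * (M * s₀ + r * (Q : ℝ) ^ 2) =
      6 * C₁ * A ^ n * (M * s₀) + 3 * A * (r * Q ^ 2) + (B + 1) * (r * (Q : ℝ) ^ 2) +
      (6 * C₁ * A ^ n * (r * (Q : ℝ) ^ 2) + 3 * A * (M * s₀) + (B + 1) * (M * s₀)) := by ring
  rw [e]
  have h1 : ((B : ℝ) + 1) * 1 ≤ (B + 1) * (r * (Q : ℝ) ^ 2) := mul_le_mul_of_nonneg_left hrQ hB0
  have h2 : 0 ≤ 6 * C₁ * A ^ n * (r * (Q : ℝ) ^ 2) + 3 * A * (M * s₀) + (B + 1) * (M * s₀) := by positivity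
  linarith

/-! ### one polynomial, the logarithmic approximation function -/

lemma summable_g (ε : ℝ) (hε : 0 < ε) :
    Summable (fun q : ℕ => 1 / ((q : ℝ) * (Real.log q) ^ (1 + ε))) := by
  rw [← summable_nat_add_iff 1]
  set f : ℕ → ℝ := fun q => 1 / (((q + 1 : ℕ) : ℝ) * (Real.log ((q + 1 : ℕ) : ℝ)) ^ (1 + ε)) with hf
  have hlog0 : ∀ q : ℕ, 0 ≤ Real.log ((q + 1 : ℕ) : ℝ) := fun q => Real.log_natCast_nonneg _
  have hnn : ∀ q, 0 ≤ f q := by
    intro q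
    rw [hf]
    have := hlog0 q
    positivity
  have hmono : ∀ ⦃m n : ℕ⦄, 0 < m → m ≤ n → f n ≤ f m := by
    intro m n hm hmn
    rw [hf]
    have hlm : 0 < Real.log ((m + 1 : ℕ) : ℝ) := Real.log_pos (by exact_mod_cast (by omega : 1 < m + 1))
    have hll : Real.log ((m + 1 : ℕ) : ℝ) ≤ Real.log ((n + 1 : ℕ) : ℝ) :=
      Real.log_le_log (by positivity) (by exact_mod_cast (by omega))
    have hmn' : ((m + 1 : ℕ) : ℝ) ≤ ((n + 1 : ℕ) : ℝ) := by exact_mod_cast (by omega)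
    apply one_div_le_one_div_of_le (by positivity)
    apply mul_le_mul hmn' (Real.rpow_le_rpow hlm.le hll (by linarith)) (by positivity) (by positivity)
  rw [← summable_condensed_iff_of_nonneg hnn hmono]
  have hl2 := Real.log_two_gt_d9
  have hs : Summable (fun k : ℕ => (2 / Real.log 2) ^ (1 + ε) * (1 / ((k + 1 : ℕ) : ℝ) ^ (1 + ε))) := by
    apply Summable.mul_left
    exact (summable_nat_add_iff 1).2 (Real.summable_one_div_nat_rpow.2 (by linarith : 1 < 1 + ε))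
  refine Summable.of_nonneg_of_le (fun k => mul_nonneg (by positivity) (hnn _)) (fun k => ?_) hs
  have hlk : ((k + 1 : ℕ) : ℝ) * (Real.log 2 / 2) ≤ Real.log (((2 ^ k + 1 : ℕ)) : ℝ) := by
    rcases Nat.eq_zero_or_pos k with rfl | hk
    · norm_num
      linarith
    · have h1 : Real.log ((2 : ℝ) ^ k) ≤ Real.log (((2 ^ k + 1 : ℕ)) : ℝ) := by
        apply Real.log_le_log (by positivity)
        push_cast
        linarith
      rw [Real.log_pow] at h1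
      have h2 : (1 : ℝ) ≤ k := by exact_mod_cast hk
      refine le_trans ?_ h1
      push_cast
      nlinarith
  have hp : 0 < ((k + 1 : ℕ) : ℝ) * (Real.log 2 / 2) := by positivity
  have hlp : 0 < Real.log (((2 ^ k + 1 : ℕ)) : ℝ) := lt_of_lt_of_le hp hlk
  have h3 : (((k + 1 : ℕ) : ℝ) * (Real.log 2 / 2)) ^ (1 + ε) ≤
      (Real.log (((2 ^ k + 1 : ℕ)) : ℝ)) ^ (1 + ε) := Real.rpow_le_rpow hp.le hlk (by linarith)
  have h4 : 0 < (((k + 1 : ℕ) : ℝ) * (Real.log 2 / 2)) ^ (1 + ε) := Real.rpow_pos_of_pos hp _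
  calc (2 : ℝ) ^ k * f (2 ^ k) ≤ 1 / (Real.log (((2 ^ k + 1 : ℕ)) : ℝ)) ^ (1 + ε) := by
        rw [hf, mul_one_div, div_le_div_iff₀ (by positivity) (by positivity), one_mul]
        apply mul_le_mul_of_nonneg_right _ (by positivity)
        push_cast
        linarith
    _ ≤ 1 / (((k + 1 : ℕ) : ℝ) * (Real.log 2 / 2)) ^ (1 + ε) := one_div_le_one_div_of_le h4 h3
    _ = _ := by
        have hl20 : 0 ≤ Real.log 2 := by linarith
        rw [Real.mul_rpow (by positivity) (by positivity), Real.div_rpow (by norm_num) hl20,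
          Real.div_rpow hl20 (by norm_num)]
        have h5 : (0 : ℝ) < (2 : ℝ) ^ (1 + ε) := by positivity
        have h6 : (0 : ℝ) < (Real.log 2) ^ (1 + ε) := Real.rpow_pos_of_pos (by linarith) _
        have h7 : (0 : ℝ) < (((k + 1 : ℕ) : ℝ)) ^ (1 + ε) := by positivity
        field_simp

open Classical in
lemma single (f : ℝ[X]) (hn : 2 ≤ f.natDegree) (ε η κ : ℝ) (hε : 0 < ε) (hη : 0 < η) (hκ : κ < 1 / 2) :
    ∃ c : ℝ, 0 < c ∧ ∃ M₀ : ℕ, ∀ M : ℕ, M₀ ≤ M → ∀ S : Finset ℕ,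
      (∀ m ∈ S, 1 ≤ m ∧ m ≤ M ∧ ∃ ξ : ℝ, f.eval ξ = m ∧ ∃ (p : ℤ) (q : ℕ), 2 ≤ q ∧
        (q : ℝ) ≤ (m : ℝ) ^ (κ * (1 - 1 / (f.natDegree : ℝ))) ∧
        |ξ - p / q| ≤ c / (q ^ 2 * (Real.log q) ^ (1 + ε))) →
      (S.card : ℝ) ≤ η * M := by
  obtain ⟨C, hC, hcount⟩ := count f hn
  set n := f.natDegree with hndef
  have hn2 : (2 : ℝ) ≤ n := by exact_mod_cast hn
  have hsum := summable_g ε hε
  have hnn : ∀ q : ℕ, 0 ≤ 1 / ((q : ℝ) * (Real.log q) ^ (1 + ε)) := by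
    intro q
    have := Real.log_natCast_nonneg q
    positivity
  set Z : ℝ := ∑' q : ℕ, 1 / ((q : ℝ) * (Real.log q) ^ (1 + ε)) with hZ
  have hZ0 : 0 ≤ Z := tsum_nonneg hnn
  have hl2 : 0 < Real.log 2 := Real.log_pos (by norm_num)
  set c : ℝ := min ((Real.log 2) ^ (1 + ε)) (η / (2 * C * (Z + 1))) with hc
  have hc0 : 0 < c := lt_min (by positivity) (by positivity)
  have hc1 : c ≤ (Real.log 2) ^ (1 + ε) := min_le_left _ _
  have hc2 : c ≤ η / (2 * C * (Z + 1)) := min_le_right _ _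
  set κ' : ℝ := max κ 0 with hκ'
  have hκ'0 : 0 ≤ κ' := le_max_right _ _
  have hκ'1 : κ' < 1 / 2 := max_lt hκ (by norm_num)
  set s : ℝ := 1 - 1 / (n : ℝ) with hs
  have hs0 : 0 < s := by
    have : 1 / (n : ℝ) ≤ 1 / 2 := one_div_le_one_div_of_le (by norm_num) hn2
    rw [hs]
    linarith
  set e : ℝ := 1 / (n : ℝ) + 2 * (κ' * s) with he
  have he1 : e < 1 := by
    have h1 : 2 * (κ' * s) < s := by nlinarith
    rw [he]
    rw [hs] at h1 ⊢
    linarith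
  have htend : ∀ᶠ M : ℕ in atTop, C * (M : ℝ) ^ e ≤ η / 2 * M := by
    have h1 := (tendsto_rpow_neg_atTop (y := 1 - e) (by linarith)).comp (tendsto_natCast_atTop_atTop (R := ℝ))
    have h2 : ∀ᶠ M : ℕ in atTop, (M : ℝ) ^ (-(1 - e)) < η / (2 * C) :=
      h1.eventually (gt_mem_nhds (by positivity))
    filter_upwards [h2, eventually_ge_atTop 1] with M h3 h4
    have hM0 : (0 : ℝ) < M := by exact_mod_cast h4
    have h5 : (M : ℝ) ^ e = (M : ℝ) ^ (-(1 - e)) * M := by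
      have : (M : ℝ) ^ (-(1 - e)) * (M : ℝ) = (M : ℝ) ^ (-(1 - e)) * (M : ℝ) ^ (1 : ℝ) := by rw [Real.rpow_one]
      rw [this, ← Real.rpow_add hM0]
      congr 1
      ring
    rw [h5]
    have h6 : C * ((M : ℝ) ^ (-(1 - e)) * M) = (C * (M : ℝ) ^ (-(1 - e))) * M := by ring
    rw [h6]
    apply mul_le_mul_of_nonneg_right _ hM0.le
    have h7 := mul_le_mul_of_nonneg_left h3.le hC.le
    have h8 : C * (η / (2 * C)) = η / 2 := by field_simp
    linarith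
  obtain ⟨M₁, hM₁⟩ := eventually_atTop.1 htend
  refine ⟨c, hc0, max M₁ 1, ?_⟩
  intro M hM S hS
  have hMM : M₁ ≤ M := le_trans (le_max_left _ _) hM
  have hM1 : 1 ≤ M := le_trans (le_max_right _ _) hM
  have hM1R : (1 : ℝ) ≤ M := by exact_mod_cast hM1
  have hM0 : (0 : ℝ) < M := by linarith
  set Q : ℕ := ⌊(M : ℝ) ^ (κ' * s)⌋₊ with hQ
  have hQ1 : 1 ≤ Q := Nat.le_floor (by
    push_cast
    exact Real.one_le_rpow hM1R (by positivity))
  have hQle : (Q : ℝ) ≤ (M : ℝ) ^ (κ' * s) := Nat.floor_le (by positivity)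
  set ψ : ℕ → ℝ := fun q => if 2 ≤ q then c / ((q : ℝ) ^ 2 * (Real.log q) ^ (1 + ε)) else 0 with hψdef
  have hψ : ∀ q, 0 ≤ ψ q ∧ ψ q ≤ 1 := by
    intro q
    rw [hψdef]
    by_cases h : 2 ≤ q
    · simp only [h, if_true]
      have hlq := Real.log_natCast_nonneg q
      refine ⟨by positivity, ?_⟩
      have hq2 : (2 : ℝ) ≤ q := by exact_mod_cast h
      have h1 : (Real.log 2) ^ (1 + ε) ≤ (Real.log q) ^ (1 + ε) :=
        Real.rpow_le_rpow hl2.le (Real.log_le_log (by norm_num) hq2) (by linarith)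
      have h2 : 0 < (Real.log 2) ^ (1 + ε) := by positivity
      have h3 : 0 < (q : ℝ) ^ 2 * (Real.log q) ^ (1 + ε) := by
        have : 0 < (Real.log q) ^ (1 + ε) := lt_of_lt_of_le h2 h1
        positivity
      rw [div_le_one h3]
      have h4 : (1 : ℝ) ≤ (q : ℝ) ^ 2 := by nlinarith
      nlinarith
    · simp only [h, if_false]
      exact ⟨le_refl _, zero_le_one⟩
  have h1 := hcount M Q ψ hM1 hQ1 hψ S (by
    intro m hm
    obtain ⟨hm1, hmM, ξ, hξ, p, q, hq, hqm, hpq⟩ := hS m hm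
    refine ⟨hmM, ξ, hξ, p, q, by omega, ?_, ?_⟩
    · rw [hQ]
      apply Nat.le_floor
      have hmR : (1 : ℝ) ≤ m := by exact_mod_cast hm1
      have hmMR : (m : ℝ) ≤ M := by exact_mod_cast hmM
      calc (q : ℝ) ≤ (m : ℝ) ^ (κ * s) := hqm
        _ ≤ (m : ℝ) ^ (κ' * s) := Real.rpow_le_rpow_of_exponent_le hmR
            (mul_le_mul_of_nonneg_right (le_max_left _ _) hs0.le)
        _ ≤ (M : ℝ) ^ (κ' * s) := Real.rpow_le_rpow (by linarith) hmMR (by positivity)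
    · rw [hψdef]
      simp only [hq, if_true]
      exact hpq)
  have h2 : ∑ q ∈ Icc 1 Q, (q : ℝ) * ψ q ≤ c * Z := by
    have h3 : ∀ q ∈ Icc 1 Q, (q : ℝ) * ψ q ≤ c * (1 / ((q : ℝ) * (Real.log q) ^ (1 + ε))) := by
      intro q hq
      have hq1 : (0 : ℝ) < q := by exact_mod_cast (mem_Icc.1 hq).1
      rw [hψdef]
      by_cases h : 2 ≤ q
      · simp only [h, if_true]
        apply le_of_eq
        by_cases hL : (Real.log q) ^ (1 + ε) = 0
        · rw [hL]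
          simp
        · field_simp
      · simp only [h, if_false, mul_zero]
        exact mul_nonneg hc0.le (hnn q)
    calc ∑ q ∈ Icc 1 Q, (q : ℝ) * ψ q ≤ ∑ q ∈ Icc 1 Q, c * (1 / ((q : ℝ) * (Real.log q) ^ (1 + ε))) := sum_le_sum h3
      _ = c * ∑ q ∈ Icc 1 Q, (1 / ((q : ℝ) * (Real.log q) ^ (1 + ε))) := by rw [mul_sum]
      _ ≤ c * Z := mul_le_mul_of_nonneg_left (hsum.sum_le_tsum _ fun q _ => hnn q) hc0.le
  have h3 : (M : ℝ) ^ (1 / (n : ℝ)) * (Q : ℝ) ^ 2 ≤ (M : ℝ) ^ e := by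
    have h4 : (Q : ℝ) ^ 2 ≤ (M : ℝ) ^ (2 * (κ' * s)) := by
      calc (Q : ℝ) ^ 2 ≤ ((M : ℝ) ^ (κ' * s)) ^ 2 := pow_le_pow_left₀ (Nat.cast_nonneg _) hQle 2
        _ = (M : ℝ) ^ (2 * (κ' * s)) := by
            rw [← Real.rpow_natCast, ← Real.rpow_mul hM0.le]
            congr 1
            push_cast
            ring
    calc (M : ℝ) ^ (1 / (n : ℝ)) * (Q : ℝ) ^ 2 ≤ (M : ℝ) ^ (1 / (n : ℝ)) * (M : ℝ) ^ (2 * (κ' * s)) :=
          mul_le_mul_of_nonneg_left h4 (by positivity)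
      _ = (M : ℝ) ^ e := by rw [← Real.rpow_add hM0]
  have h4 : C * (c * Z) ≤ η / 2 := by
    have h5 : C * (c * Z) ≤ C * (η / (2 * C * (Z + 1)) * (Z + 1)) := by
      apply mul_le_mul_of_nonneg_left _ hC.le
      apply mul_le_mul hc2 (by linarith) hZ0 (by positivity)
    have h6 : C * (η / (2 * C * (Z + 1)) * (Z + 1)) = η / 2 := by
      have : Z + 1 ≠ 0 := by positivity
      field_simp
    linarith
  have h5 := hM₁ M hMM
  calc (S.card : ℝ) ≤ C * (M * ∑ q ∈ Icc 1 Q, (q : ℝ) * ψ q + (M : ℝ) ^ (1 / (n : ℝ)) * (Q : ℝ) ^ 2) := h1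
    _ ≤ C * (M * (c * Z) + (M : ℝ) ^ e) := by
        apply mul_le_mul_of_nonneg_left _ hC.le
        exact add_le_add (mul_le_mul_of_nonneg_left h2 hM0.le) h3
    _ = C * (c * Z) * M + C * (M : ℝ) ^ e := by ring
    _ ≤ η / 2 * M + η / 2 * M := add_le_add (mul_le_mul_of_nonneg_right h4 hM0.le) h5
    _ = η * M := by ring

/-! ### the theorem -/

open Classical in
/-- **Lang's inequality for the real roots of all the equations `f_j(x) = m` at once, for almost all integers `m`.** -/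
theorem result :
    (∀ f : ℝ[X], 2 ≤ f.natDegree → ∃ C : ℝ, ∀ (M Q : ℕ) (ψ : ℕ → ℝ), 1 ≤ M → 1 ≤ Q → (∀ q, 0 ≤ ψ q ∧ ψ q ≤ 1) →
      ({m : ℕ | m ≤ M ∧ ∃ ξ : ℝ, f.eval ξ = m ∧
          ∃ (p : ℤ) (q : ℕ), 1 ≤ q ∧ q ≤ Q ∧ |ξ - p / q| ≤ ψ q}.ncard : ℝ) ≤
        C * (M * ∑ q ∈ Icc 1 Q, q * ψ q + (M : ℝ) ^ (1 / (f.natDegree : ℝ)) * Q ^ 2)) ∧
    ∀ f : ℕ → ℝ[X], (∀ j, 2 ≤ (f j).natDegree) → ∀ ε η κ : ℝ, 0 < ε → 0 < η → κ < 1 / 2 →
      ∃ (E : Set ℕ) (c : ℕ → ℝ) (m₀ : ℕ → ℕ), (∀ j, 0 < c j) ∧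
        (∀ M : ℕ, ({m : ℕ | m ∈ E ∧ m ≤ M}.ncard : ℝ) ≤ η * M) ∧
        ∀ j m : ℕ, m ∉ E → m₀ j ≤ m → ∀ ξ : ℝ, (f j).eval ξ = m → ∀ (p : ℤ) (q : ℕ), 2 ≤ q →
          (q : ℝ) ≤ (m : ℝ) ^ (κ * (1 - 1 / ((f j).natDegree : ℝ))) →
          c j / (q ^ 2 * (Real.log q) ^ (1 + ε)) < |ξ - p / q| := by
  constructor
  · intro f hn
    obtain ⟨C, hC, h⟩ := count f hn
    refine ⟨C, fun M Q ψ hM hQ hψ => ?_⟩
    have hfin : {m : ℕ | m ≤ M ∧ ∃ ξ : ℝ, f.eval ξ = m ∧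
          ∃ (p : ℤ) (q : ℕ), 1 ≤ q ∧ q ≤ Q ∧ |ξ - p / q| ≤ ψ q}.Finite :=
      (Set.finite_Iic M).subset fun m hm => hm.1
    rw [Set.ncard_eq_toFinset_card _ hfin]
    exact h M Q ψ hM hQ hψ _ fun m hm => (Set.Finite.mem_toFinset hfin).1 hm
  · intro f hf ε η κ hε hη hκ
    have hs : ∀ j, ∃ c : ℝ, 0 < c ∧ ∃ M₀ : ℕ, ∀ M : ℕ, M₀ ≤ M → ∀ S : Finset ℕ,
        (∀ m ∈ S, 1 ≤ m ∧ m ≤ M ∧ ∃ ξ : ℝ, (f j).eval ξ = m ∧ ∃ (p : ℤ) (q : ℕ), 2 ≤ q ∧
          (q : ℝ) ≤ (m : ℝ) ^ (κ * (1 - 1 / ((f j).natDegree : ℝ))) ∧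
          |ξ - p / q| ≤ c / (q ^ 2 * (Real.log q) ^ (1 + ε))) →
        (S.card : ℝ) ≤ (η / 2 * (1 / 2) ^ j) * M :=
      fun j => single (f j) (hf j) ε _ κ hε (by positivity) hκ
    choose c hc M₀ hM₀ using hs
    set Bad : ℕ → ℕ → Prop := fun j m => ∃ ξ : ℝ, (f j).eval ξ = m ∧ ∃ (p : ℤ) (q : ℕ), 2 ≤ q ∧
          (q : ℝ) ≤ (m : ℝ) ^ (κ * (1 - 1 / ((f j).natDegree : ℝ))) ∧
          |ξ - p / q| ≤ c j / (q ^ 2 * (Real.log q) ^ (1 + ε)) with hBad
    refine ⟨{m | ∃ j, j < m ∧ M₀ j ≤ m ∧ Bad j m}, c, fun j => max (j + 1) (M₀ j), hc, ?_, ?_⟩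
    · intro M
      have hfin : {m : ℕ | m ∈ {m | ∃ j, j < m ∧ M₀ j ≤ m ∧ Bad j m} ∧ m ≤ M}.Finite :=
        (Set.finite_Iic M).subset fun m hm => hm.2
      rw [Set.ncard_eq_toFinset_card _ hfin]
      set S : ℕ → Finset ℕ := fun j => (Icc 1 M).filter fun m => M₀ j ≤ m ∧ Bad j m with hS
      have hsub : hfin.toFinset ⊆ (range M).biUnion S := by
        intro m hm
        obtain ⟨⟨j, hj, h1, h2⟩, hmM⟩ := (Set.Finite.mem_toFinset hfin).1 hm
        rw [mem_biUnion]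
        refine ⟨j, mem_range.2 (by omega), ?_⟩
        rw [hS]
        simp only [mem_filter, mem_Icc]
        exact ⟨⟨by omega, hmM⟩, h1, h2⟩
      have hcard : ∀ j, ((S j).card : ℝ) ≤ (η / 2 * (1 / 2) ^ j) * M := by
        intro j
        by_cases hjM : M₀ j ≤ M
        · apply hM₀ j M hjM
          intro m hm
          rw [hS] at hm
          simp only [mem_filter, mem_Icc] at hm
          exact ⟨hm.1.1, hm.1.2, hm.2.2⟩
        · have : S j = ∅ := by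
            rw [hS]
            apply filter_eq_empty_iff.2
            intro m hm h1
            have := (mem_Icc.1 hm).2
            omega
          rw [this]
          simp only [card_empty, Nat.cast_zero]
          positivity
      calc (hfin.toFinset.card : ℝ) ≤ (((range M).biUnion S).card : ℝ) := by exact_mod_cast card_le_card hsub
        _ ≤ ∑ j ∈ range M, ((S j).card : ℝ) := by exact_mod_cast card_biUnion_le
        _ ≤ ∑ j ∈ range M, (η / 2 * (1 / 2) ^ j) * M := sum_le_sum fun j _ => hcard j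
        _ = (∑ j ∈ range M, (1 / 2 : ℝ) ^ j) * (η / 2 * M) := by
            rw [sum_mul]
            exact sum_congr rfl fun j _ => by ring
        _ ≤ 2 * (η / 2 * M) := mul_le_mul_of_nonneg_right (sum_geometric_two_le M) (by positivity)
        _ = η * M := by ring
    · intro j m hm hjm ξ hξ p q hq hqm
      by_contra hcon
      push Not at hcon
      apply hm
      exact ⟨j, by
        have := le_trans (le_max_left (j + 1) (M₀ j)) hjm
        omega, le_trans (le_max_right _ _) hjm, ξ, hξ, p, q, hq, hqm, hcon⟩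

end Pool.Agent.Results.MP_c307ca_nt.RootsOfPolynomials
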